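import Mathlib

/-!
Separation lemma for two sequences of ultrafilters on `ℕ`.
-/

open Set Filter

namespace H317.CC

theorem seq_of_step {σ : Type*} (R : σ → σ → Prop) (h : ∀ s, ∃ s', R s s') (s0 : σ) :
    ∃ f : ℕ → σ, f 0 = s0 ∧ ∀ n, R (f n) (f (n + 1)) := by
  choose g hg using h
  exact ⟨fun n => Nat.rec s0 (fun _ s => g s) n, rfl, fun n => hg _⟩

/-- An infinite set of natural numbers contains two disjoint infinite subsets. -/
theorem split_infinite (D : Set ℕ) (hD : D.Infinite) :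
    ∃ D1 D2 : Set ℕ, D1 ⊆ D ∧ D2 ⊆ D ∧ Disjoint D1 D2 ∧ D1.Infinite ∧ D2.Infinite := by
  classical
  let f := hD.natEmbedding
  refine ⟨range (fun k => (f (2 * k) : ℕ)), range (fun k => (f (2 * k + 1) : ℕ)), ?_, ?_, ?_, ?_, ?_⟩
  · rintro _ ⟨k, rfl⟩; exact (f (2 * k)).2
  · rintro _ ⟨k, rfl⟩; exact (f (2 * k + 1)).2
  · rw [Set.disjoint_left]
    rintro _ ⟨k, rfl⟩ ⟨l, hl⟩
    have := f.injective (Subtype.ext hl)
    omega
  · apply Set.infinite_range_of_injective
    intro a b hab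
    have := f.injective (Subtype.ext hab)
    omega
  · apply Set.infinite_range_of_injective
    intro a b hab
    have := f.injective (Subtype.ext hab)
    omega

theorem exists_sep_set {u v : Ultrafilter ℕ} (h : u ≠ v) : ∃ U : Set ℕ, U ∈ u ∧ U ∉ v := by
  by_contra hcon
  push Not at hcon
  exact h (Ultrafilter.eq_of_le (f := v) (g := u) (fun U hU => hcon U hU)).symm

theorem not_mem_of_disjoint {u : Ultrafilter ℕ} {S T : Set ℕ} (hS : S ∈ u) (h : Disjoint S T) :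
    T ∉ u := by
  intro hT
  have := Filter.inter_mem (f := (u : Filter ℕ)) hS hT
  rw [h.inter_eq] at this
  exact Ultrafilter.empty_notMem this

theorem sep (α β : ℕ → Ultrafilter ℕ) (hne : ∀ n, α n ≠ β n) :
    ∃ C : Set ℕ, {n | C ∈ α n ∧ C ∉ β n}.Infinite := by
  classical
  by_contra hcon
  push Not at hcon
  have H : ∀ C : Set ℕ, {n | C ∈ α n ∧ C ∉ β n}.Finite := fun C => by
    simpa [Set.not_infinite] using hcon C
  have H2 : ∀ C : Set ℕ, {n | ¬ (C ∈ α n ↔ C ∈ β n)}.Finite := by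
    intro C
    refine ((H C).union (H Cᶜ)).subset ?_
    intro n hn
    simp only [Set.mem_setOf_eq] at hn
    by_cases h1 : C ∈ α n
    · left; exact ⟨h1, fun h => hn ⟨fun _ => h, fun _ => h1⟩⟩
    · right
      by_cases h2 : C ∈ β n
      · exact ⟨Ultrafilter.compl_mem_iff_notMem.2 h1,
          fun h => Ultrafilter.compl_mem_iff_notMem.1 h h2⟩
      · exact absurd ⟨fun h => absurd h h1, fun h => absurd h h2⟩ hn
  -- first recursion
  let St := {p : Set ℕ × Set ℕ // p.2.Infinite ∧ ∀ m ∈ p.2, p.1 ∈ α m ∧ p.1 ∈ β m}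
  let R : St → St → Prop := fun s s' => ∃ n ∈ s.1.2, s'.1.2 ⊆ {m ∈ s.1.2 | n < m} ∧
    s'.1.1 ⊆ s.1.1 ∧ ∃ T : Set ℕ, T ⊆ s.1.1 ∧ Disjoint T s'.1.1 ∧
      ∃ γ δ : Ultrafilter ℕ, ((γ = α n ∧ δ = β n) ∨ (γ = β n ∧ δ = α n)) ∧ T ∈ γ ∧ T ∉ δ
  have hR : ∀ s, ∃ s', R s s' := by
    rintro ⟨⟨Rg, A⟩, hA, hmem⟩
    simp only at hA hmem
    obtain ⟨n, hn⟩ := hA.nonempty
    obtain ⟨U, hU1, hU2⟩ := exists_sep_set (hne n)
    have hinf : {m ∈ A | n < m}.Infinite := by
      intro hfin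
      apply hA
      refine (hfin.union (Set.finite_Iic n)).subset ?_
      intro m hm
      by_cases h : n < m
      · left; exact ⟨hm, h⟩
      · right; exact not_lt.1 h
    have hcov : {m ∈ A | n < m} ⊆ {m | (m ∈ A ∧ n < m) ∧ U ∈ α m ∧ U ∈ β m} ∪
        ({m | (m ∈ A ∧ n < m) ∧ Uᶜ ∈ α m ∧ Uᶜ ∈ β m} ∪ {n | ¬ (U ∈ α n ↔ U ∈ β n)}) := by
      intro m hm
      by_cases h1 : U ∈ α m <;> by_cases h2 : U ∈ β m
      · left; exact ⟨hm, h1, h2⟩
      · right; right; intro h; exact h2 (h.1 h1)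
      · right; right; intro h; exact h1 (h.2 h2)
      · right; left
        exact ⟨hm, Ultrafilter.compl_mem_iff_notMem.2 h1, Ultrafilter.compl_mem_iff_notMem.2 h2⟩
    rcases Set.infinite_union.1 (hinf.mono hcov) with h1 | h1
    · refine ⟨⟨(Rg ∩ U, {m | (m ∈ A ∧ n < m) ∧ U ∈ α m ∧ U ∈ β m}), h1, ?_⟩, n, hn, ?_, ?_,
        Rg ∩ Uᶜ, ?_, ?_, β n, α n, Or.inr ⟨rfl, rfl⟩, ?_, ?_⟩
      · rintro m ⟨⟨hm1, hm2⟩, hm3, hm4⟩
        exact ⟨Filter.inter_mem (hmem m hm1).1 hm3, Filter.inter_mem (hmem m hm1).2 hm4⟩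
      · rintro m ⟨hm1, hm2⟩; exact hm1
      · exact inter_subset_left
      · exact inter_subset_left
      · rw [Set.disjoint_left]; rintro x ⟨_, hx⟩ ⟨_, hx'⟩; exact hx hx'
      · exact Filter.inter_mem (hmem n hn).2 (Ultrafilter.compl_mem_iff_notMem.2 hU2)
      · intro h
        exact Ultrafilter.compl_mem_iff_notMem.1
          (Filter.mem_of_superset h inter_subset_right) hU1
    · rcases Set.infinite_union.1 h1 with h1 | h1
      · refine ⟨⟨(Rg ∩ Uᶜ, {m | (m ∈ A ∧ n < m) ∧ Uᶜ ∈ α m ∧ Uᶜ ∈ β m}), h1, ?_⟩, n, hn, ?_, ?_,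
          Rg ∩ U, ?_, ?_, α n, β n, Or.inl ⟨rfl, rfl⟩, ?_, ?_⟩
        · rintro m ⟨⟨hm1, hm2⟩, hm3, hm4⟩
          exact ⟨Filter.inter_mem (hmem m hm1).1 hm3, Filter.inter_mem (hmem m hm1).2 hm4⟩
        · rintro m ⟨hm1, hm2⟩; exact hm1
        · exact inter_subset_left
        · exact inter_subset_left
        · rw [Set.disjoint_left]; rintro x ⟨_, hx⟩ ⟨_, hx'⟩; exact hx' hx
        · exact Filter.inter_mem (hmem n hn).1 hU1
        · intro h
          exact hU2 (Filter.mem_of_superset h inter_subset_right)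
      · exact absurd (H2 U) h1
  obtain ⟨f, -, hf⟩ := seq_of_step R hR
    ⟨(Set.univ, Set.univ), Set.infinite_univ, fun m _ => ⟨Filter.univ_mem, Filter.univ_mem⟩⟩
  choose n hnA hA' hR' T hT hTd γ δ hγδ hTγ hTδ using hf
  have hAanti : ∀ i j, i ≤ j → (f j).1.2 ⊆ (f i).1.2 := by
    intro i j hij
    induction hij with
    | refl => exact subset_rfl
    | step _ ih => exact fun m hm => ih ((hA' _ hm).1)
  have hRanti : ∀ i j, i ≤ j → (f j).1.1 ⊆ (f i).1.1 := by
    intro i j hij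
    induction hij with
    | refl => exact subset_rfl
    | step _ ih => exact fun m hm => ih (hR' _ hm)
  have hnmono : StrictMono n := strictMono_nat_of_lt_succ (fun k => (hA' k (hnA (k + 1))).2)
  -- `T j ∉ δ i` for `j ≤ i`
  have hTδ' : ∀ j i, j ≤ i → T j ∉ δ i := by
    intro j i hji
    rcases hji.eq_or_lt with rfl | hlt
    · exact hTδ j
    · have h1 : n i ∈ (f (j + 1)).1.2 := hAanti (j + 1) i hlt (hnA i)
      have h2 := (f (j + 1)).2.2 (n i) h1
      have h3 : (f (j + 1)).1.1 ∈ δ i := by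
        rcases hγδ i with ⟨_, h⟩ | ⟨_, h⟩
        · rw [h]; exact h2.2
        · rw [h]; exact h2.1
      exact not_mem_of_disjoint h3 (hTd j).symm
  have hTdisj : ∀ i j, i < j → Disjoint (T i) (T j) := by
    intro i j hij
    exact (hTd i).mono_right ((hT j).trans (hRanti (i + 1) j hij))
  have hTdisj' : ∀ i j, i ≠ j → Disjoint (T i) (T j) := by
    intro i j hij
    rcases lt_or_gt_of_ne hij with h | h
    · exact hTdisj i j h
    · exact (hTdisj j i h).symm
  -- second recursion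
  let St2 := {B : Set ℕ // B.Infinite}
  let R2 : St2 → St2 → Prop := fun B B' => ∃ i ∈ B.1, B'.1 ⊆ {j ∈ B.1 | i < j} ∧
    (⋃ j ∈ B'.1, T j) ∉ δ i
  have hR2 : ∀ s, ∃ s', R2 s s' := by
    rintro ⟨B, hB⟩
    obtain ⟨i, hi⟩ := hB.nonempty
    have hinf : {m ∈ B | i < m}.Infinite := by
      intro hfin
      apply hB
      refine (hfin.union (Set.finite_Iic i)).subset ?_
      intro m hm
      by_cases h : i < m
      · left; exact ⟨hm, h⟩
      · right; exact not_lt.1 h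
    obtain ⟨D1, D2, h1, h2, h12, hi1, hi2⟩ := split_infinite _ hinf
    by_cases hD1 : (⋃ j ∈ D1, T j) ∈ δ i
    · refine ⟨⟨D2, hi2⟩, i, hi, h2, ?_⟩
      apply not_mem_of_disjoint hD1
      rw [Set.disjoint_left]
      intro x hx hx'
      simp only [Set.mem_iUnion] at hx hx'
      obtain ⟨a, ha, hxa⟩ := hx
      obtain ⟨b, hb, hxb⟩ := hx'
      have hab : a ≠ b := by
        rintro rfl
        exact Set.disjoint_left.1 h12 ha hb
      exact Set.disjoint_left.1 (hTdisj' a b hab) hxa hxb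
    · exact ⟨⟨D1, hi1⟩, i, hi, h1, hD1⟩
  obtain ⟨g, -, hg⟩ := seq_of_step R2 hR2 ⟨Set.univ, Set.infinite_univ⟩
  choose i hiB hB' hU using hg
  have hBanti : ∀ a b, a ≤ b → (g b).1 ⊆ (g a).1 := by
    intro a b hab
    induction hab with
    | refl => exact subset_rfl
    | step _ ih => exact fun m hm => ih ((hB' _ hm).1)
  have himono : StrictMono i := strictMono_nat_of_lt_succ (fun k => (hB' k (hiB (k + 1))).2)
  have hfinal := H2 (⋃ k, T (i k))
  have hinj : Function.Injective (fun k => n (i k)) := (hnmono.comp himono).injective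
  refine Set.infinite_range_of_injective hinj (hfinal.subset ?_)
  rintro _ ⟨k, rfl⟩
  have h1 : (⋃ k, T (i k)) ∈ γ (i k) :=
    Filter.mem_of_superset (hTγ (i k)) (Set.subset_iUnion (fun k => T (i k)) k)
  have h2 : (⋃ k, T (i k)) ∉ δ (i k) := by
    intro h
    have hsub : (⋃ k, T (i k)) ⊆ (⋃ l ∈ Set.Iic k, T (i l)) ∪ (⋃ j ∈ (g (k + 1)).1, T j) := by
      intro x hx
      simp only [Set.mem_iUnion] at hx
      obtain ⟨l, hl⟩ := hx
      by_cases hlk : l ≤ k
      · left; simp only [Set.mem_iUnion]; exact ⟨l, hlk, hl⟩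
      · right; simp only [Set.mem_iUnion]
        exact ⟨i l, hBanti (k + 1) l (by omega) (hiB l), hl⟩
    have h3 := Filter.mem_of_superset h hsub
    rcases Ultrafilter.union_mem_iff.1 h3 with h4 | h4
    · rw [Ultrafilter.finite_biUnion_mem_iff (Set.finite_Iic k)] at h4
      obtain ⟨l, hl, hl'⟩ := h4
      exact hTδ' (i l) (i k) (himono.monotone hl) hl'
    · exact hU k h4
  simp only [Set.mem_setOf_eq]
  intro hiff
  rcases hγδ (i k) with ⟨ha, hb⟩ | ⟨ha, hb⟩
  · rw [ha] at h1; rw [hb] at h2; exact h2 (hiff.1 h1)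
  · rw [ha] at h1; rw [hb] at h2; exact h2 (hiff.2 h1)

end H317.CC
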