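import Mathlib
import Pool.Agent.H317CC.Sep

/-!
Generic ultrafilters along a well-order of type `ω₁`.
-/

open Set Filter

namespace H317.CC

section tower

variable {Ω : Type} [LinearOrder Ω] [WellFoundedLT Ω]

open Classical in
/-- The tower, by well-founded recursion. -/
noncomputable def tower (P : Ω → Set ℕ → Prop) : Ω → Set ℕ :=
  WellFoundedLT.fix (motive := fun _ => Set ℕ) (fun ξ A =>
    if h : ∃ B : Set ℕ, B.Infinite ∧ P ξ B ∧ ∀ η (hη : η < ξ), (B \ A η hη).Finite then h.choose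
    else ∅)

theorem tower_spec (P : Ω → Set ℕ → Prop) (ξ : Ω)
    (h : ∃ B : Set ℕ, B.Infinite ∧ P ξ B ∧ ∀ η, η < ξ → (B \ tower P η).Finite) :
    (tower P ξ).Infinite ∧ P ξ (tower P ξ) ∧ ∀ η, η < ξ → (tower P ξ \ tower P η).Finite := by
  have heq : tower P ξ = h.choose := by
    unfold tower
    rw [WellFoundedLT.fix_eq]
    exact dif_pos h
  rw [heq]
  exact h.choose_spec

theorem tower_good (hΩ : ∀ ξ : Ω, (Set.Iio ξ).Countable) (P : Ω → Set ℕ → Prop)
    (hP : ∀ ξ, ∀ A : Set ℕ, A.Infinite → ∃ B ⊆ A, B.Infinite ∧ P ξ B) (ξ : Ω) :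
    (tower P ξ).Infinite ∧ P ξ (tower P ξ) ∧ ∀ η, η < ξ → (tower P ξ \ tower P η).Finite := by
  induction ξ using WellFoundedLT.induction with
  | ind ξ ih =>
    apply tower_spec
    by_cases hne : Nonempty (Set.Iio ξ)
    · have : Countable (Set.Iio ξ) := (hΩ ξ).to_subtype
      let F : Filter ℕ := ⨅ η : Set.Iio ξ, (cofinite ⊓ 𝓟 (tower P η.1))
      have hFne : NeBot F := by
        refine Filter.iInf_neBot_of_directed' ?_ ?_
        · apply directed_of_isDirected_le
          intro a b hab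
          rcases eq_or_lt_of_le hab with rfl | hlt
          · exact le_rfl
          · have hfin := (ih b.1 b.2).2.2 a.1 hlt
            intro s hs
            rw [Filter.mem_inf_principal] at hs ⊢
            rw [Filter.mem_cofinite] at hs ⊢
            refine (hs.union hfin).subset ?_
            intro x hx
            simp only [Set.mem_compl_iff, Set.mem_ofPred_eq, Classical.not_imp] at hx ⊢
            by_cases hxa : x ∈ tower P a.1
            · left
              simp only [Set.mem_compl_iff, Set.mem_ofPred_eq, Classical.not_imp]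
              exact ⟨hxa, hx.2⟩
            · right; exact ⟨hx.1, hxa⟩
        · intro η
          exact (ih η.1 η.2).1.cofinite_inf_principal_neBot
      have : IsCountablyGenerated F := by
        have : IsCountablyGenerated (cofinite : Filter ℕ) := by
          rw [Nat.cofinite_eq_atTop]; infer_instance
        infer_instance
      obtain ⟨x, hx⟩ := exists_seq_tendsto F
      obtain ⟨η0⟩ := hne
      have hx0 : ∀ η : Set.Iio ξ, Tendsto x atTop (cofinite ⊓ 𝓟 (tower P η.1)) := fun η =>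
        hx.mono_right (iInf_le _ η)
      have hxc : Tendsto x atTop cofinite := (hx0 η0).mono_right inf_le_left
      have hD : (range x).Infinite := by
        intro hfin
        have h1 : (range x)ᶜ ∈ (cofinite : Filter ℕ) := by
          rw [Filter.mem_cofinite, compl_compl]; exact hfin
        have h2 := hxc h1
        rw [Filter.mem_map, Filter.mem_atTop_sets] at h2
        obtain ⟨N, hN⟩ := h2
        exact hN N le_rfl ⟨N, rfl⟩
      obtain ⟨B, hBD, hBi, hBP⟩ := hP ξ _ hD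
      refine ⟨B, hBi, hBP, ?_⟩
      intro η hη
      have h1 : tower P η ∈ (𝓟 (tower P η) : Filter ℕ) := Filter.mem_principal_self _
      have h2 := ((hx0 ⟨η, hη⟩).mono_right inf_le_right) h1
      rw [Filter.mem_map, Filter.mem_atTop_sets] at h2
      obtain ⟨N, hN⟩ := h2
      refine ((Set.finite_Iio N).image x).subset ?_
      rintro y ⟨hyB, hyn⟩
      obtain ⟨k, rfl⟩ := hBD hyB
      refine ⟨k, ?_, rfl⟩
      by_contra hk
      exact hyn (hN k (not_lt.1 hk))
    · obtain ⟨B, -, hBi, hBP⟩ := hP ξ Set.univ Set.infinite_univ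
      refine ⟨B, hBi, hBP, ?_⟩
      intro η hη
      exact absurd ⟨⟨η, hη⟩⟩ hne

/-- A nonprincipal ultrafilter containing a set satisfying each of `ω₁` many dense requirements. -/
theorem exists_generic [Nonempty Ω] (hΩ : ∀ ξ : Ω, (Set.Iio ξ).Countable) (P : Ω → Set ℕ → Prop)
    (hP : ∀ ξ, ∀ A : Set ℕ, A.Infinite → ∃ B ⊆ A, B.Infinite ∧ P ξ B) :
    ∃ v : Ultrafilter ℕ, (v : Filter ℕ) ≤ cofinite ∧ ∀ ξ, ∃ B ∈ v, P ξ B := by
  have hg := tower_good hΩ P hP
  let F : Filter ℕ := ⨅ η : Ω, (cofinite ⊓ 𝓟 (tower P η))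
  have hFne : NeBot F := by
    refine Filter.iInf_neBot_of_directed' ?_ ?_
    · apply directed_of_isDirected_le
      intro a b hab
      rcases eq_or_lt_of_le hab with rfl | hlt
      · exact le_rfl
      · have hfin := (hg b).2.2 a hlt
        intro s hs
        rw [Filter.mem_inf_principal] at hs ⊢
        rw [Filter.mem_cofinite] at hs ⊢
        refine (hs.union hfin).subset ?_
        intro x hx
        simp only [Set.mem_compl_iff, Set.mem_ofPred_eq, Classical.not_imp] at hx ⊢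
        by_cases hxa : x ∈ tower P a
        · left
          simp only [Set.mem_compl_iff, Set.mem_ofPred_eq, Classical.not_imp]
          exact ⟨hxa, hx.2⟩
        · right; exact ⟨hx.1, hxa⟩
    · intro η
      exact (hg η).1.cofinite_inf_principal_neBot
  have hle : ((Ultrafilter.of F : Ultrafilter ℕ) : Filter ℕ) ≤ F := Ultrafilter.of_le F
  refine ⟨Ultrafilter.of F, ?_, ?_⟩
  · obtain ⟨η⟩ := ‹Nonempty Ω›
    exact hle.trans ((iInf_le _ η).trans inf_le_left)
  · intro ξ
    refine ⟨tower P ξ, ?_, (hg ξ).2.1⟩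
    exact (hle.trans ((iInf_le _ ξ).trans inf_le_right)) (Filter.mem_principal_self _)

end tower

/-- `v` is generic over `Z`: `v`-limits of sequences in `Z` separate sequences modulo `v`. -/
def Gen (Z : Set (Ultrafilter ℕ)) (v : Ultrafilter ℕ) : Prop :=
  (v : Filter ℕ) ≤ cofinite ∧ ∀ α β : ℕ → Ultrafilter ℕ, (∀ n, α n ∈ Z) → (∀ n, β n ∈ Z) →
    {n | α n ≠ β n} ∈ v → ∃ C : Set ℕ, {n | C ∈ α n ∧ C ∉ β n} ∈ v

theorem dense_task (α β : ℕ → Ultrafilter ℕ) (A : Set ℕ) (hA : A.Infinite) :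
    ∃ B ⊆ A, B.Infinite ∧ ((∀ n ∈ B, α n = β n) ∨ ∃ C : Set ℕ, ∀ n ∈ B, C ∈ α n ∧ C ∉ β n) := by
  classical
  by_cases h : (A ∩ {n | α n ≠ β n}).Infinite
  · let e := h.natEmbedding
    obtain ⟨C, hC⟩ := sep (fun k => α (e k)) (fun k => β (e k)) (fun k => (e k).2.2)
    refine ⟨(fun k => (e k : ℕ)) '' {k | C ∈ α (e k) ∧ C ∉ β (e k)}, ?_, ?_, Or.inr ⟨C, ?_⟩⟩
    · rintro _ ⟨k, -, rfl⟩; exact (e k).2.1
    · refine hC.image ?_
      intro a _ b _ hab
      exact e.injective (Subtype.ext hab)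
    · rintro _ ⟨k, hk, rfl⟩; exact hk
  · refine ⟨A ∩ {n | α n = β n}, inter_subset_left, ?_, Or.inl fun n hn => hn.2⟩
    intro hfin
    apply hA
    refine ((Set.not_infinite.1 h).union hfin).subset ?_
    intro x hx
    by_cases hx' : α x = β x
    · right; exact ⟨hx, hx'⟩
    · left; exact ⟨hx, hx'⟩

theorem exists_gen {Ω : Type} [LinearOrder Ω] [WellFoundedLT Ω] [Nonempty Ω]
    (hΩ : ∀ ξ : Ω, (Set.Iio ξ).Countable) (Z : Set (Ultrafilter ℕ))
    (t : Ω → (ℕ → Z) × (ℕ → Z)) (ht : Function.Surjective t) : ∃ v, Gen Z v := by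
  obtain ⟨v, hv, hv2⟩ := exists_generic hΩ (fun ξ B =>
    (∀ n ∈ B, ((t ξ).1 n : Ultrafilter ℕ) = (t ξ).2 n) ∨
      ∃ C : Set ℕ, ∀ n ∈ B, C ∈ ((t ξ).1 n : Ultrafilter ℕ) ∧ C ∉ ((t ξ).2 n : Ultrafilter ℕ))
    (fun ξ A hA => dense_task _ _ A hA)
  refine ⟨v, hv, ?_⟩
  intro α β hα hβ hne
  obtain ⟨ξ, hξ⟩ := ht (fun n => ⟨α n, hα n⟩, fun n => ⟨β n, hβ n⟩)
  obtain ⟨B, hB, hBP⟩ := hv2 ξ
  simp only [hξ] at hBP
  rcases hBP with h | ⟨C, hC⟩
  · exfalso
    have := Filter.inter_mem (f := (v : Filter ℕ)) hB hne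
    obtain ⟨n, hn1, hn2⟩ := Ultrafilter.nonempty_of_mem this
    exact hn2 (h n hn1)
  · exact ⟨C, Filter.mem_of_superset hB hC⟩

end H317.CC
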