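import Mathlib
import Pool.Agent.H317CC.Gen

/-!
Under CH there is an invariant directed family of Hausdorff ultrafilters on `ℕ` in which every
sequence has a cluster point.
-/

open Set Filter Cardinal

namespace H317.CC

/-- the sum of the ultrafilters `z n` along `v` -/
noncomputable def sm (v : Ultrafilter ℕ) (z : ℕ → Ultrafilter ℕ) : Ultrafilter ℕ :=
  Ultrafilter.bind v (fun n => (z n).map (Nat.pair n))

theorem mem_bind {v : Ultrafilter ℕ} {z : ℕ → Ultrafilter ℕ} {A : Set ℕ} :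
    A ∈ Ultrafilter.bind v z ↔ {n | A ∈ z n} ∈ v := by
  exact Iff.rfl

theorem mem_sm {v : Ultrafilter ℕ} {z : ℕ → Ultrafilter ℕ} {A : Set ℕ} :
    A ∈ sm v z ↔ {n | {x | Nat.pair n x ∈ A} ∈ z n} ∈ v := by
  exact Iff.rfl

theorem uext {u v : Ultrafilter ℕ} (h : ∀ A : Set ℕ, A ∈ u ↔ A ∈ v) : u = v := by
  by_contra hne
  obtain ⟨U, h1, h2⟩ := exists_sep_set hne
  exact h2 ((h U).1 h1)

theorem mem_map' {u : Ultrafilter ℕ} {f : ℕ → ℕ} {A : Set ℕ} :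
    A ∈ u.map f ↔ {x | f x ∈ A} ∈ u := Iff.rfl

/-- Hausdorff ultrafilters -/
def Hau (u : Ultrafilter ℕ) : Prop :=
  ∀ f g : ℕ → ℕ, u.map f = u.map g → {x | f x = g x} ∈ u

theorem Hau.map {u : Ultrafilter ℕ} (hu : Hau u) (f : ℕ → ℕ) : Hau (u.map f) := by
  intro g h hgh
  rw [Ultrafilter.map_map, Ultrafilter.map_map] at hgh
  exact hu _ _ hgh

structure Good (Z : Set (Ultrafilter ℕ)) : Prop where
  pure_mem : ∀ n : ℕ, (pure n : Ultrafilter ℕ) ∈ Z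
  inv : ∀ u ∈ Z, ∀ f : ℕ → ℕ, u.map f ∈ Z
  hau : ∀ u ∈ Z, Hau u
  dir : ∀ u ∈ Z, ∀ v ∈ Z, ∃ w ∈ Z, w.map (fun n => n.unpair.1) = u ∧ w.map (fun n => n.unpair.2) = v

theorem hau_sm {Z : Set (Ultrafilter ℕ)} (hZ : Good Z) {v : Ultrafilter ℕ} (hv : Gen Z v)
    {z : ℕ → Ultrafilter ℕ} (hz : ∀ n, z n ∈ Z) : Hau (sm v z) := by
  intro F G hFG
  by_contra hne
  have hne' : {x | F x ≠ G x} ∈ sm v z := by
    have := Ultrafilter.compl_mem_iff_notMem.2 hne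
    exact this
  rw [mem_sm] at hne'
  obtain ⟨C, hC⟩ := hv.2 (fun n => (z n).map (fun x => F (Nat.pair n x)))
    (fun n => (z n).map (fun x => G (Nat.pair n x))) (fun n => hZ.inv _ (hz n) _)
    (fun n => hZ.inv _ (hz n) _) (by
      refine Filter.mem_of_superset hne' ?_
      intro n hn heq
      have h1 := hZ.hau _ (hz n) _ _ heq
      have h2 := Filter.inter_mem (f := (z n : Filter ℕ)) h1 hn
      obtain ⟨x, hx1, hx2⟩ := Ultrafilter.nonempty_of_mem h2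
      exact hx2 hx1)
  have h1 : C ∈ (sm v z).map F := by
    rw [mem_map', mem_sm]
    exact Filter.mem_of_superset hC (fun n hn => hn.1)
  have h2 : C ∉ (sm v z).map G := by
    intro h
    rw [mem_map', mem_sm] at h
    have h3 := Filter.inter_mem (f := (v : Filter ℕ)) hC h
    obtain ⟨n, hn1, hn2⟩ := Ultrafilter.nonempty_of_mem h3
    exact hn1.2 hn2
  rw [hFG] at h1
  exact h2 h1

/-- the one-step extension -/
def nx (v : Ultrafilter ℕ) (Z : Set (Ultrafilter ℕ)) : Set (Ultrafilter ℕ) :=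
  {w | ∃ z : ℕ → Ultrafilter ℕ, (∀ n, z n ∈ Z) ∧ ∃ f : ℕ → ℕ, w = (sm v z).map f}

theorem bind_mem_nx {v : Ultrafilter ℕ} {Z : Set (Ultrafilter ℕ)} {z : ℕ → Ultrafilter ℕ}
    (hz : ∀ n, z n ∈ Z) : Ultrafilter.bind v z ∈ nx v Z := by
  refine ⟨z, hz, fun k => k.unpair.2, ?_⟩
  apply uext
  intro A
  rw [mem_map', mem_sm, mem_bind]
  simp only [Set.mem_ofPred_eq, Nat.unpair_pair]
  rfl

theorem subset_nx (v : Ultrafilter ℕ) (Z : Set (Ultrafilter ℕ)) : Z ⊆ nx v Z := by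
  intro u hu
  have := bind_mem_nx (v := v) (Z := Z) (z := fun _ => u) (fun _ => hu)
  have heq : Ultrafilter.bind v (fun _ => u) = u := by
    apply uext
    intro A
    rw [mem_bind]
    by_cases h : A ∈ u
    · simp only [h, iff_true]
      convert! Filter.univ_mem (f := (v : Filter ℕ)) using 1
    · simp only [h, iff_false]
      intro h'
      obtain ⟨n, hn⟩ := Ultrafilter.nonempty_of_mem h'
      exact hn
  rwa [heq] at this

theorem good_nx {Z : Set (Ultrafilter ℕ)} (hZ : Good Z) {v : Ultrafilter ℕ} (hv : Gen Z v) :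
    Good (nx v Z) := by
  refine ⟨fun n => subset_nx v Z (hZ.pure_mem n), ?_, ?_, ?_⟩
  · rintro _ ⟨z, hz, f, rfl⟩ g
    exact ⟨z, hz, g ∘ f, by rw [Ultrafilter.map_map]⟩
  · rintro _ ⟨z, hz, f, rfl⟩
    exact (hau_sm hZ hv hz).map f
  · rintro _ ⟨z, hz, f, rfl⟩ _ ⟨z', hz', f', rfl⟩
    choose y hy hy1 hy2 using fun n => hZ.dir (z n) (hz n) (z' n) (hz' n)
    refine ⟨(sm v y).map (fun k => Nat.pair (f (Nat.pair k.unpair.1 k.unpair.2.unpair.1))
      (f' (Nat.pair k.unpair.1 k.unpair.2.unpair.2))), ⟨y, hy, _, rfl⟩, ?_, ?_⟩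
    · apply uext
      intro A
      rw [Ultrafilter.map_map, mem_map', mem_sm, mem_map', mem_sm]
      have : ∀ n, ({x | Nat.pair n x ∈ {x | f x ∈ A}} ∈ z n ↔
        {x | Nat.pair n x.unpair.1 ∈ {x | f x ∈ A}} ∈ y n) := by
        intro n
        conv_lhs => rw [← hy1 n]
        rfl
      simp only [this]
      simp only [Set.mem_ofPred_eq, Function.comp, Nat.unpair_pair]
    · apply uext
      intro A
      rw [Ultrafilter.map_map, mem_map', mem_sm, mem_map', mem_sm]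
      have : ∀ n, ({x | Nat.pair n x ∈ {x | f' x ∈ A}} ∈ z' n ↔
        {x | Nat.pair n x.unpair.2 ∈ {x | f' x ∈ A}} ∈ y n) := by
        intro n
        conv_lhs => rw [← hy2 n]
        rfl
      simp only [this]
      simp only [Set.mem_ofPred_eq, Function.comp, Nat.unpair_pair]

theorem card_nx {Z : Set (Ultrafilter ℕ)} (hZ : #Z ≤ 𝔠) (v : Ultrafilter ℕ) : #(nx v Z) ≤ 𝔠 := by
  have h1 : #((ℕ → Z) × (ℕ → ℕ)) ≤ 𝔠 := by
    have h2 : #(ℕ → Z) ≤ 𝔠 := by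
      have : #(ℕ → Z) = #Z ^ ℵ₀ := by simp
      rw [this]
      calc #Z ^ ℵ₀ ≤ 𝔠 ^ ℵ₀ := Cardinal.power_le_power_right hZ
        _ = 𝔠 := by simp
    have h3 : #(ℕ → ℕ) ≤ 𝔠 := by simp
    calc #((ℕ → Z) × (ℕ → ℕ)) = #(ℕ → Z) * #(ℕ → ℕ) := by rw [Cardinal.mk_prod]; simp
      _ ≤ 𝔠 * 𝔠 := mul_le_mul' h2 h3
      _ = 𝔠 := by simp
  refine le_trans ?_ h1
  refine Cardinal.mk_le_of_surjective (f := fun p : (ℕ → Z) × (ℕ → ℕ) =>
    (⟨(sm v (fun n => (p.1 n : Ultrafilter ℕ))).map p.2,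
      ⟨fun n => p.1 n, fun n => (p.1 n).2, p.2, rfl⟩⟩ : nx v Z)) ?_
  rintro ⟨_, z, hz, f, rfl⟩
  exact ⟨(fun n => ⟨z n, hz n⟩, f), rfl⟩

end H317.CC
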