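import Mathlib
import Pool.Agent.H317CC.Main

open Set Filter Cardinal

namespace H317.CC

open Classical in
/-- a chosen ultrafilter generic over `Z` -/
noncomputable def vOf (Z : Set (Ultrafilter ℕ)) : Ultrafilter ℕ :=
  if h : ∃ v, Gen Z v then h.choose else pure 0

theorem vOf_spec {Z : Set (Ultrafilter ℕ)} (h : ∃ v, Gen Z v) : Gen Z (vOf Z) := by
  rw [vOf, dif_pos h]; exact h.choose_spec

section

variable {Ω : Type} [LinearOrder Ω] [WellFoundedLT Ω]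

/-- the stages of the construction -/
noncomputable def stage : Ω → Set (Ultrafilter ℕ) :=
  WellFoundedLT.fix (motive := fun _ => Set (Ultrafilter ℕ)) (fun ξ S =>
    range (pure : ℕ → Ultrafilter ℕ) ∪ ⋃ η : Set.Iio ξ, nx (vOf (S η.1 η.2)) (S η.1 η.2))

theorem stage_eq (ξ : Ω) : stage ξ =
    range (pure : ℕ → Ultrafilter ℕ) ∪ ⋃ η : Set.Iio ξ, nx (vOf (stage η.1)) (stage η.1) := by
  conv_lhs => unfold stage
  rw [WellFoundedLT.fix_eq]
  rfl

theorem nx_subset_stage {η ξ : Ω} (h : η < ξ) : nx (vOf (stage η)) (stage η) ⊆ stage ξ := by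
  rw [stage_eq ξ]
  exact subset_union_of_subset_right
    (Set.subset_iUnion (fun η : Set.Iio ξ => nx (vOf (stage η.1)) (stage η.1)) ⟨η, h⟩) _

theorem stage_mono {η ξ : Ω} (h : η ≤ ξ) : stage η ⊆ stage ξ := by
  rcases h.eq_or_lt with rfl | h
  · exact subset_rfl
  · exact (subset_nx _ _).trans (nx_subset_stage h)

theorem pure_mem_stage (ξ : Ω) (n : ℕ) : (pure n : Ultrafilter ℕ) ∈ stage ξ := by
  rw [stage_eq]; left; exact ⟨n, rfl⟩

theorem hau_pure (n : ℕ) : Hau (pure n : Ultrafilter ℕ) := by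
  intro f g h
  rw [Ultrafilter.map_pure, Ultrafilter.map_pure] at h
  have := Ultrafilter.pure_injective h
  exact this

theorem good_stage (hΩ : ∀ ξ : Ω, (Set.Iio ξ).Countable) (hcard : #Ω = 𝔠) (ξ : Ω) :
    Good (stage ξ) ∧ #(stage ξ) ≤ 𝔠 := by
  induction ξ using WellFoundedLT.induction with
  | ind ξ ih =>
    have : Nonempty Ω := ⟨ξ⟩
    have hgen : ∀ η < ξ, Gen (stage η) (vOf (stage η)) := by
      intro η hη
      apply vOf_spec
      have hZ := (ih η hη).2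
      have hn : Nonempty (stage η) := ⟨⟨pure 0, pure_mem_stage η 0⟩⟩
      have h1 : #((ℕ → stage η) × (ℕ → stage η)) ≤ #Ω := by
        have h2 : #(ℕ → stage η) ≤ 𝔠 := by
          have : #(ℕ → stage η) = #(stage η) ^ ℵ₀ := by simp
          rw [this]
          calc #(stage η) ^ ℵ₀ ≤ 𝔠 ^ ℵ₀ := Cardinal.power_le_power_right hZ
            _ = 𝔠 := by simp
        rw [hcard]
        calc #((ℕ → stage η) × (ℕ → stage η)) = #(ℕ → stage η) * #(ℕ → stage η) := by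
              rw [Cardinal.mk_prod]; simp
          _ ≤ 𝔠 * 𝔠 := mul_le_mul' h2 h2
          _ = 𝔠 := by simp
      obtain ⟨⟨e, he⟩⟩ := h1
      refine exists_gen hΩ (stage η) (Function.invFun e) ?_
      exact Function.invFun_surjective he
    have hgood : ∀ η < ξ, Good (nx (vOf (stage η)) (stage η)) := fun η hη =>
      good_nx (ih η hη).1 (hgen η hη)
    have hcases : ∀ u ∈ stage ξ, (∃ n, u = pure n) ∨ ∃ η < ξ, u ∈ nx (vOf (stage η)) (stage η) := by
      intro u hu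
      rw [stage_eq] at hu
      rcases hu with ⟨n, rfl⟩ | hu
      · exact Or.inl ⟨n, rfl⟩
      · simp only [Set.mem_iUnion] at hu
        obtain ⟨η, hη⟩ := hu
        exact Or.inr ⟨η.1, η.2, hη⟩
    refine ⟨⟨pure_mem_stage ξ, ?_, ?_, ?_⟩, ?_⟩
    · intro u hu f
      rcases hcases u hu with ⟨n, rfl⟩ | ⟨η, hη, hu'⟩
      · rw [Ultrafilter.map_pure]; exact pure_mem_stage ξ _
      · exact nx_subset_stage hη ((hgood η hη).inv u hu' f)
    · intro u hu
      rcases hcases u hu with ⟨n, rfl⟩ | ⟨η, hη, hu'⟩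
      · exact hau_pure n
      · exact (hgood η hη).hau u hu'
    · intro u hu v hv
      have key : (∃ η < ξ, u ∈ nx (vOf (stage η)) (stage η) ∧ v ∈ nx (vOf (stage η)) (stage η)) ∨
          ∃ a b, u = pure a ∧ v = pure b := by
        rcases hcases u hu with ⟨n, rfl⟩ | ⟨η, hη, hu'⟩ <;>
          rcases hcases v hv with ⟨m, rfl⟩ | ⟨η', hη', hv'⟩
        · exact Or.inr ⟨n, m, rfl, rfl⟩
        · exact Or.inl ⟨η', hη', subset_nx _ _ (pure_mem_stage η' n), hv'⟩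
        · exact Or.inl ⟨η, hη, hu', subset_nx _ _ (pure_mem_stage η m)⟩
        · left
          rcases lt_trichotomy η η' with h | h | h
          · exact ⟨η', hη', subset_nx _ _ (nx_subset_stage h hu'), hv'⟩
          · subst h; exact ⟨η, hη, hu', hv'⟩
          · exact ⟨η, hη, hu', subset_nx _ _ (nx_subset_stage h hv')⟩
      rcases key with ⟨η, hη, h1, h2⟩ | ⟨a, b, rfl, rfl⟩
      · obtain ⟨w, hw, hw'⟩ := (hgood η hη).dir u h1 v h2
        exact ⟨w, nx_subset_stage hη hw, hw'⟩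
      · refine ⟨pure (Nat.pair a b), pure_mem_stage ξ _, ?_, ?_⟩
        · rw [Ultrafilter.map_pure, Nat.unpair_pair]
        · rw [Ultrafilter.map_pure, Nat.unpair_pair]
    · rw [stage_eq]
      have hc : #(Set.Iio ξ) ≤ ℵ₀ := (hΩ ξ).le_aleph0
      have h1 : #(⋃ η : Set.Iio ξ, nx (vOf (stage η.1)) (stage η.1) : Set (Ultrafilter ℕ)) ≤ 𝔠 := by
        refine (Cardinal.mk_iUnion_le _).trans ?_
        have h2 : (⨆ η : Set.Iio ξ, #(nx (vOf (stage η.1)) (stage η.1))) ≤ 𝔠 :=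
          ciSup_le' (fun η => card_nx (ih η.1 η.2).2 _)
        calc _ ≤ ℵ₀ * 𝔠 := mul_le_mul' hc h2
          _ = 𝔠 := by simp
      have h0 : #(range (pure : ℕ → Ultrafilter ℕ)) ≤ 𝔠 :=
        (Cardinal.mk_range_le).trans (by simpa using Cardinal.aleph0_le_continuum)
      refine (Cardinal.mk_union_le _ _).trans ?_
      calc _ ≤ 𝔠 + 𝔠 := add_le_add h0 h1
        _ = 𝔠 := by simp

end

theorem main (hCH : (𝔠 : Cardinal.{0}) = ℵ₁) : ∃ Z : Set (Ultrafilter ℕ), Good Z ∧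
    ∀ z : ℕ → Ultrafilter ℕ, (∀ n, z n ∈ Z) →
      ∃ w ∈ Z, ∃ v : Ultrafilter ℕ, (v : Filter ℕ) ≤ cofinite ∧ ∀ A : Set ℕ, A ∈ w ↔
        {n | A ∈ z n} ∈ v := by
  let Ω := (ℵ₁ : Cardinal.{0}).ord.ToType
  have hcard : #Ω = 𝔠 := by
    rw [hCH]; simp [Ω]
  have hΩ : ∀ ξ : Ω, (Set.Iio ξ).Countable := by
    intro ξ
    have h := Cardinal.mk_Iio_toType_ord_lt (c := ℵ₁) ξ
    rw [← Cardinal.le_aleph0_iff_set_countable]
    exact Order.lt_succ_iff.1 (h.trans_eq Cardinal.succ_aleph0.symm)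
  have hunc : ¬ (Set.univ : Set Ω).Countable := by
    rw [Set.countable_univ_iff, ← Cardinal.mk_le_aleph0_iff, hcard, not_le]
    exact Cardinal.aleph0_lt_continuum
  have hΩ' : ∀ ξ : Ω, (Set.Iic ξ).Countable := by
    intro ξ
    rw [← Set.Iio_insert]
    exact (hΩ ξ).insert ξ
  have hbound : ∀ e : ℕ → Ω, ∃ ξ, ∀ n, e n < ξ := by
    intro e
    by_contra hcon
    push Not at hcon
    apply hunc
    refine (Set.countable_iUnion (fun n => hΩ' (e n))).mono ?_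
    intro ξ _
    obtain ⟨n, hn⟩ := hcon ξ
    exact Set.mem_iUnion.2 ⟨n, hn⟩
  have hgs := fun ξ : Ω => (good_stage hΩ hcard ξ)
  have hne : Nonempty Ω := by
    obtain ⟨ξ, _⟩ := hbound (fun _ => Classical.choice (by
      rw [← Cardinal.mk_ne_zero_iff, hcard]; exact Cardinal.continuum_ne_zero))
    exact ⟨ξ⟩
  obtain ⟨ξ0⟩ := hne
  have hup : ∀ ξ : Ω, ∃ ξ', ξ < ξ' := fun ξ => by
    obtain ⟨ξ', h⟩ := hbound (fun _ => ξ)
    exact ⟨ξ', h 0⟩
  refine ⟨⋃ ξ : Ω, stage ξ, ⟨?_, ?_, ?_, ?_⟩, ?_⟩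
  · intro n
    exact Set.mem_iUnion.2 ⟨ξ0, pure_mem_stage ξ0 n⟩
  · intro u hu f
    obtain ⟨ξ, hξ⟩ := Set.mem_iUnion.1 hu
    exact Set.mem_iUnion.2 ⟨ξ, (hgs ξ).1.inv u hξ f⟩
  · intro u hu
    obtain ⟨ξ, hξ⟩ := Set.mem_iUnion.1 hu
    exact (hgs ξ).1.hau u hξ
  · intro u hu v hv
    obtain ⟨ξ, hξ⟩ := Set.mem_iUnion.1 hu
    obtain ⟨ξ', hξ'⟩ := Set.mem_iUnion.1 hv
    obtain ⟨w, hw, hw'⟩ := (hgs (max ξ ξ')).1.dir u (stage_mono (le_max_left _ _) hξ) v
      (stage_mono (le_max_right _ _) hξ')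
    exact ⟨w, Set.mem_iUnion.2 ⟨_, hw⟩, hw'⟩
  · intro z hz
    choose e he using fun n => Set.mem_iUnion.1 (hz n)
    obtain ⟨ξ, hξ⟩ := hbound e
    obtain ⟨ξ', hξ'⟩ := hup ξ
    have hz' : ∀ n, z n ∈ stage ξ := fun n => stage_mono (hξ n).le (he n)
    have hgen : Gen (stage ξ) (vOf (stage ξ)) := by
      have : Nonempty Ω := ⟨ξ⟩
      apply vOf_spec
      have hZ := (hgs ξ).2
      have hn : Nonempty (stage ξ) := ⟨⟨pure 0, pure_mem_stage ξ 0⟩⟩
      have h1 : #((ℕ → stage ξ) × (ℕ → stage ξ)) ≤ #Ω := by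
        have h2 : #(ℕ → stage ξ) ≤ 𝔠 := by
          have : #(ℕ → stage ξ) = #(stage ξ) ^ ℵ₀ := by simp
          rw [this]
          calc #(stage ξ) ^ ℵ₀ ≤ 𝔠 ^ ℵ₀ := Cardinal.power_le_power_right hZ
            _ = 𝔠 := by simp
        rw [hcard]
        calc #((ℕ → stage ξ) × (ℕ → stage ξ)) = #(ℕ → stage ξ) * #(ℕ → stage ξ) := by
              rw [Cardinal.mk_prod]; simp
          _ ≤ 𝔠 * 𝔠 := mul_le_mul' h2 h2
          _ = 𝔠 := by simp
      obtain ⟨⟨g, hg⟩⟩ := h1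
      refine exists_gen hΩ (stage ξ) (Function.invFun g) ?_
      exact Function.invFun_surjective hg
    refine ⟨Ultrafilter.bind (vOf (stage ξ)) z, ?_, vOf (stage ξ), hgen.1, ?_⟩
    · exact Set.mem_iUnion.2 ⟨ξ', nx_subset_stage hξ' (bind_mem_nx hz')⟩
    · intro A
      exact mem_bind

end H317.CC
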